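import Pool.Agent.H.MP_3dc8bf_an.Main

namespace Pool.Agent.Results.MP_3dc8bf_an.Differ

open Finset Pool.Agent.H.MP_3dc8bf_an

variable {E F : Type} [NormedAddCommGroup E] [NormedSpace ℝ E] [NormedAddCommGroup F]
  [NormedSpace ℝ F]

def KAbs (T : E →L[ℝ] E →L[ℝ] F) : Prop :=
  ∃ C ≥ 0, ∀ (a : E) (x : ℕ → E) (w : ℝ),
    (∀ φ : E →L[ℝ] ℝ, ‖φ‖ ≤ 1 → ∀ m, √(∑ j ∈ range m, |φ (x j)| ^ 2) ≤ w) →
    ∀ m, √(∑ j ∈ range m, ‖T (x j) a‖ ^ 2) ≤ C * w * ‖a‖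

def SMult (T : E →L[ℝ] E →L[ℝ] F) : Prop :=
  ∃ C ≥ 0, ∀ (m : ℕ) (x y : Fin m → E) (w : ℝ),
    (∀ φ : E →L[ℝ] E →L[ℝ] ℝ, ‖φ‖ ≤ 1 → √(∑ i, ∑ j, |φ (x i) (y j)| ^ 2) ≤ w) →
    √(∑ i, ∑ j, ‖T (x i) (y j)‖ ^ 2) ≤ C * w

theorem result : ∃ (E F : Type) (_ : NormedAddCommGroup E) (_ : NormedSpace ℝ E) (_ : CompleteSpace E)
    (_ : NormedAddCommGroup F) (_ : NormedSpace ℝ F) (_ : CompleteSpace F)
    (T : E →L[ℝ] E →L[ℝ] F), KAbs T ∧ KAbs T.flip ∧ ¬ SMult T := by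
  have key : ∀ U : E →L[ℝ] E →L[ℝ] F, (∀ x a, ‖U x a‖ ^ 2 ≤ q x * ‖a‖ ^ 2) → KAbs U := by
    refine fun U hU => ⟨1, zero_le_one, fun a x w h m => ?_⟩
    have hw : 0 ≤ w := (Real.sqrt_nonneg _).trans (h 0 (by simp) 0)
    have h1 := weak x (w ^ 2) m fun φ hφ => by
      simpa only [sq_abs] using (Real.sqrt_le_left hw).1 (h φ hφ m)
    rw [Real.sqrt_le_left (by positivity), one_mul, mul_pow]
    refine (sum_le_sum fun j _ => hU (x j) a).trans ?_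
    rw [← sum_mul]
    exact mul_le_mul_of_nonneg_right h1 (sq_nonneg _)
  refine ⟨E, F, inferInstance, inferInstance, inferInstance, inferInstance, inferInstance,
    inferInstance, T, key T fun x a => (T_le x a).1, key _ fun x a => (T_le x a).2, ?_⟩
  rintro ⟨C, hC, h⟩
  obtain ⟨n, hn⟩ := exists_nat_gt (C ^ 2)
  have hp : (0:ℝ) < n := (sq_nonneg C).trans_lt hn
  set P := (range n).powerset with hP
  have e1 : ∀ g : Finset ℕ → ℝ, ∑ i, g (P.equivFin.symm i) = ∑ A ∈ P, g A := fun g =>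
    (P.equivFin.symm.sum_comp fun A => g A).trans (sum_coe_sort P g)
  have e2 : ∀ g : Finset ℕ → Finset ℕ → ℝ, ∑ i, ∑ j, g (P.equivFin.symm i) (P.equivFin.symm j) =
      ∑ A ∈ P, ∑ B ∈ P, g A B := fun g => by
    rw [← e1 fun A => ∑ B ∈ P, g A B]
    exact sum_congr rfl fun i _ => e1 _
  have h1 := h _ (fun i => v n (P.equivFin.symm i)) (fun i => v n (P.equivFin.symm i))
    (2 ^ n * n) fun φ hφ => by
      rw [Real.sqrt_le_left (by positivity), e2 fun A B => |φ (v n A) (v n B)| ^ 2]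
      simpa only [sq_abs] using up n φ hφ
  rw [Real.sqrt_le_left (by positivity), e2 fun A B => ‖T (v n A) (v n B)‖ ^ 2] at h1
  have h2 := card_nsmul_le_sum P _ _ fun A _ => card_nsmul_le_sum P _ _ fun B _ =>
    low n (Nat.cast_pos.1 hp) A B
  rw [hP, card_powerset, card_range, nsmul_eq_mul, nsmul_eq_mul] at h2
  push_cast at h2
  have h3 : (0:ℝ) < (2 ^ n * n) ^ 2 := by positivity
  nlinarith [mul_lt_mul_of_pos_right hn h3]

end Pool.Agent.Results.MP_3dc8bf_an.Differ
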